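import Mathlib
import Pool.Agent.H.MP_28b0d6_al.Data
import Pool.Agent.H.MP_28b0d6_al.WLP

set_option autoImplicit false
open MvPolynomial

namespace Pool.Agent.Results.MP_28b0d6_al.NoWLP

/-- a finite simplicial complex, given by its nonempty faces -/
def IsComplex {n : ℕ} (Γ : Finset (Finset (Fin n))) : Prop :=
  (∀ s ∈ Γ, s.Nonempty) ∧ ∀ s ∈ Γ, ∀ t ⊆ s, t.Nonempty → t ∈ Γ

/-- Stanley-Reisner ideal of the barycentric subdivision -/
noncomputable def sdIdeal (K : Type) [Field K] {n : ℕ} (Γ : Finset (Finset (Fin n))) :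
    Ideal (MvPolynomial Γ K) :=
  Ideal.span {f | ∃ A : Finset Γ, ¬ IsChain (fun s t : Γ => s.1 ⊆ t.1) (A : Set Γ) ∧
    f = ∏ v ∈ A, X v}

/-- Cohen-Macaulay ring: depth equals dimension at every maximal ideal -/
def IsCM (R : Type) [CommRing R] : Prop :=
  IsNoetherianRing R ∧ ∀ (𝔪 : Ideal R) [𝔪.IsMaximal], ∃ rs : List (Localization.AtPrime 𝔪),
    (∀ r ∈ rs, r ∈ IsLocalRing.maximalIdeal (Localization.AtPrime 𝔪)) ∧
    RingTheory.Sequence.IsRegular (Localization.AtPrime 𝔪) rs ∧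
    (rs.length : WithBot ℕ∞) = ringKrullDim (Localization.AtPrime 𝔪)

/-- linear system of parameters of length d -/
def IsLsop {K σ : Type} [Field K] (I : Ideal (MvPolynomial σ K)) {d : ℕ}
    (θ : Fin d → MvPolynomial σ K) : Prop :=
  (∀ k, (θ k).IsHomogeneous 1) ∧
    Module.Finite K (MvPolynomial σ K ⧸ (I ⊔ Ideal.span (Set.range θ)))

/-- degree i piece of the quotient -/
def piece {K σ : Type} [Field K] (J : Ideal (MvPolynomial σ K)) (i : ℕ) :
    Set (MvPolynomial σ K ⧸ J) :=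
  Ideal.Quotient.mk J '' {f | f.IsHomogeneous i}

/-- weak Lefschetz property of the quotient -/
def HasWLP {K σ : Type} [Field K] (J : Ideal (MvPolynomial σ K)) : Prop :=
  ∃ l : MvPolynomial σ K, l.IsHomogeneous 1 ∧ ∀ i : ℕ,
    Set.InjOn (fun a => Ideal.Quotient.mk J l * a) (piece J i) ∨
    Set.SurjOn (fun a => Ideal.Quotient.mk J l * a) (piece J i) (piece J (i + 1))

open Pool.Agent.H.MP_28b0d6_al

noncomputable def e : Fin 29 ≃ Gam :=
  Equiv.ofBijective (fun i => ⟨face i, Finset.mem_image_of_mem _ (Finset.mem_univ i)⟩)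
    ⟨fun i j h => face_inj (congrArg Subtype.val h), by
      rintro ⟨s, hs⟩
      obtain ⟨i, -, rfl⟩ := Finset.mem_image.1 hs
      exact ⟨i, rfl⟩⟩

lemma e_le (i j : Fin 29) : e i ≤ e j ↔ le' i j = true := face_le i j

noncomputable def D : Sh Gam 66 where
  rk v := rk' (e.symm v)
  F j a := e (F' j a)
  R := R'
  j0 := 0
  hrk j a := by simp [d_rk]
  same u v := by
    obtain ⟨u, rfl⟩ := e.surjective u
    obtain ⟨v, rfl⟩ := e.surjective v
    simpa [e_le] using d_same u v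
  fac j a b := by simpa [e_le] using d_fac j a b
  sh1 j i h := by simpa using d_sh1 j i h
  sh2 j a h := by simpa using d_sh2 j a h
  cov u v h1 w := by
    obtain ⟨u, rfl⟩ := e.surjective u
    obtain ⟨v, rfl⟩ := e.surjective v
    obtain ⟨w, rfl⟩ := e.surjective w
    simp only [e_le, Equiv.symm_apply_apply, EmbeddingLike.apply_eq_iff_eq] at h1 ⊢
    exact d_cov u v h1 w

theorem result (K : Type) [Field K] [CharZero K] :
    ∃ (n : ℕ) (Γ : Finset (Finset (Fin n))) (d : ℕ), IsComplex Γ ∧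
      IsGreatest (Finset.card '' (Γ : Set (Finset (Fin n)))) d ∧
      IsCM (MvPolynomial Γ K ⧸ sdIdeal K Γ) ∧
      (∃ θ : Fin d → MvPolynomial Γ K, IsLsop (sdIdeal K Γ) θ) ∧
      ∀ θ : Fin d → MvPolynomial Γ K, IsLsop (sdIdeal K Γ) θ →
        ¬ HasWLP (sdIdeal K Γ ⊔ Ideal.span (Set.range θ)) := by
  refine ⟨6, Gam, 3, ⟨?_, ?_⟩, ⟨⟨face 18, ?_, face_card3⟩, ?_⟩, ⟨inferInstance, fun 𝔪 h𝔪 => @Sh.cm K Gam _ _ _ _ D _ 𝔪 h𝔪⟩,
    ⟨D.th K, D.th_hom, D.lsop⟩, ?_⟩
  · intro s hs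
    obtain ⟨i, -, rfl⟩ := Finset.mem_image.1 hs
    exact face_ne i
  · intro s hs t ht hne
    obtain ⟨i, -, rfl⟩ := Finset.mem_image.1 hs
    obtain ⟨j, rfl⟩ := face_down i t (Finset.mem_powerset.2 ht) hne
    exact Finset.mem_image_of_mem _ (Finset.mem_univ j)
  · exact Finset.mem_image_of_mem _ (Finset.mem_univ _)
  · rintro _ ⟨s, hs, rfl⟩
    obtain ⟨i, -, rfl⟩ := Finset.mem_image.1 hs
    exact face_card i
  · rintro θ ⟨h1, h2⟩ ⟨l, hl, h⟩
    choose M hM using fun k => exists_lin (h1 k)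
    obtain rfl : θ = fun k => lin (M k) := funext hM
    obtain ⟨μ, rfl⟩ := exists_lin hl
    have : Module.Finite K (MvPolynomial Gam K ⧸ JJ M) := h2
    rcases h 1 with h | h
    · obtain ⟨ν, h3, h4⟩ := D.not_inj (fun w => e (U' w)) (e.injective.comp d_Uinj)
        (fun a w => e.injective.ne (d_old a w)) (fun w => by simpa [D] using d_U w) (by
          rw [← Nat.card_congr ((e.prodCongr e).subtypeEquiv
            (p := fun p => le' p.1 p.2 = true ∧ ∃ w, U' w = p.1 ∨ U' w = p.2)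
            (fun p => by simp [e_le])), Nat.card_eq_fintype_card, Fintype.card_subtype, d_T]
          norm_num) M μ
      refine h4 (Ideal.Quotient.eq_zero_iff_mem.1 (h ⟨_, lin_hom ν, rfl⟩
        ⟨0, isHomogeneous_zero _ _ _, map_zero _⟩ ?_))
      simp only [← map_mul]
      exact (Ideal.Quotient.eq_zero_iff_mem.2 h3).trans (mul_zero _).symm
    · refine not_surj (V := Gam) ?_ M μ fun u v => ?_
      · rw [← Nat.card_congr ((e.prodCongr e).subtypeEquiv
          (p := fun p => le' p.1 p.2 = true) (fun p => by simp [e_le])),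
          ← Fintype.card_congr e, Fintype.card_fin, Nat.card_eq_fintype_card,
          Fintype.card_subtype, d_E]
        simp
      · obtain ⟨_, ⟨f, -, rfl⟩, hf⟩ := h ⟨X u * X v,
          (isHomogeneous_X K u).mul (isHomogeneous_X K v), rfl⟩
        refine ⟨f, Ideal.Quotient.eq.1 ?_⟩
        rw [map_mul (Ideal.Quotient.mk _) (lin μ)]
        exact hf.symm

end Pool.Agent.Results.MP_28b0d6_al.NoWLP
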